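import Pool.Agent.L0h86.GQ.Cnt
import Pool.Agent.L0h19.GQ.NGAL
import Pool.Agent.L0h26.GQ.CYC
import Pool.Agent.L0h29.GQ.TOPG
import Pool.Agent.L0h34.GQ.STEP
import Pool.Agent.L0h66.GQ.KEY
import Pool.Agent.L0h68.GQ.LSQ
import Pool.Agent.L0h68.GQ.ODD
import Pool.Agent.L0h85.GQ.VAN

/-!
# Project GQ (helper86): the assembly
-/

set_option autoImplicit false

namespace Pool.Agent.L0h86.GQ

/-- the vanishing for the characters -/
theorem a_VAN : S_VAN := Pool.Agent.L0h85.GQ.t_VAN Pool.Agent.L0h68.GQ.t_ODD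
  (Pool.Agent.L0h66.GQ.t_KEY Pool.Agent.L0h68.GQ.t_LSQ) Pool.Agent.L0h26.GQ.t_CYC

/-- the vanishing over the quadratic extensions -/
theorem a_TOPG : S_TOPG := Pool.Agent.L0h29.GQ.t_TOPG a_VAN Pool.Agent.L0h34.GQ.t_STEP

namespace D

/-- **The criterion.** -/
theorem main {D : GaussianInt} (hg : Good D) : Schneider D :=
  sch a_TOPG Pool.Agent.L0h26.GQ.t_CYC Pool.Agent.L0h19.GQ.t_NGAL hg

/-- **The positive proportion.** -/
theorem main_count : ∃ c : ℝ, 0 < c ∧ ∃ X₀ : ℕ, ∀ X : ℕ, X₀ ≤ X →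
    c * ((Family X).ncard : ℝ) ≤
      (({D | D ∈ Family X ∧ Good D ∧ Schneider D} : Set GaussianInt).ncard : ℝ) := by
  obtain ⟨c, hc, X₀, h⟩ := count
  refine ⟨c, hc, X₀, fun X hX => ?_⟩
  have e : ({D | D ∈ Family X ∧ Good D ∧ Schneider D} : Set GaussianInt) =
      {D | D ∈ Family X ∧ Good D} := by
    ext D
    exact ⟨fun h1 => ⟨h1.1, h1.2.1⟩, fun h1 => ⟨h1.1, h1.2, main h1.2⟩⟩
  rw [e]
  exact h X hX

end D

end Pool.Agent.L0h86.GQ
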