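import Pool.Agent.L0h86.GQ.Fin
import Pool.Agent.Y699.Pos

/-!
# Project GQ (helper86): the count, from `Pool/Agent/Y699`
-/

set_option autoImplicit false

namespace Pool.Agent.L0h86.GQ.D

open Pool.Agent.Y699 (mem_PD qr PP PS GB SB mem_SB)
open Pool.Agent.W164.RC (prim_iff_dvd)

theorem good_of {D : GaussianInt} (h : Pool.Agent.Y699.Good D) : Good D := by
  refine ⟨h.ps.sqf, (prim_iff_dvd D).1 h.ps.prm, h.five, ?_⟩
  intro d d' h1 h2 h3 h4 h5
  have hD := h.ps.sqf.ne_zero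
  have hd : d ≠ 0 := by
    rintro rfl
    exact hD (by rw [h3, zero_mul])
  have hd' : d' ≠ 0 := by
    rintro rfl
    exact hD (by rw [h3, mul_zero])
  have hcop : ∀ π : GaussianInt, Prime π → π ∣ d → ¬ π ∣ d' := by
    intro π hπ h6 h7
    apply hπ.not_isUnit
    apply h.ps.sqf π
    rw [h3]
    exact mul_dvd_mul h6 h7
  refine h.ker d d' ((prim_iff_dvd d).2 h1) ((prim_iff_dvd d').2 h2) h3 ?_ ?_
  · intro π hπ
    obtain ⟨h6, h7⟩ := (mem_PD hd).1 hπ
    unfold qr
    rw [if_neg (hcop π h6.pr h7), if_pos (h4 π h6.pr h7)]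
  · intro π hπ
    obtain ⟨h6, h7⟩ := (mem_PD hd').1 hπ
    unfold qr
    rw [if_neg (fun h8 => hcop π h6.pr h8 h7), if_pos (h5 π h6.pr h7)]

theorem family_finite (X : ℕ) : (Family X).Finite := by
  refine (Pool.Agent.Y699.fin_norm_le X).subset ?_
  rintro D ⟨-, h⟩
  have h0 := GaussianInt.norm_nonneg D
  show D.norm.natAbs ≤ X
  omega

/-- There are at most `9 X` elements of norm at most `X`. -/
theorem family_le {X : ℕ} (hX : 1 ≤ X) : (Family X).ncard ≤ 9 * X := by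
  classical
  set s := Nat.sqrt X with hs
  have hs1 : 1 ≤ s := Nat.le_sqrt.2 (by omega)
  set B : Finset (ℤ × ℤ) := (Finset.Icc (-(s : ℤ)) s) ×ˢ (Finset.Icc (-(s : ℤ)) s) with hB
  have hinj : Set.InjOn (fun D : GaussianInt => (D.re, D.im)) (Family X) := by
    intro a _ b _ hab
    simp only [Prod.mk.injEq] at hab
    exact Zsqrtd.ext hab.1 hab.2
  have hmaps : ∀ D ∈ Family X, (fun D : GaussianInt => (D.re, D.im)) D ∈ (B : Set (ℤ × ℤ)) := by
    rintro D ⟨-, h⟩
    have h1 : D.norm = D.re ^ 2 + D.im ^ 2 := by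
      rw [Zsqrtd.norm_def]; ring
    have h4 : D.re.natAbs ≤ s := by
      rw [hs, Nat.le_sqrt']; zify; rw [sq_abs]; nlinarith [sq_nonneg D.im]
    have h5 : D.im.natAbs ≤ s := by
      rw [hs, Nat.le_sqrt']; zify; rw [sq_abs]; nlinarith [sq_nonneg D.re]
    rw [hB, Finset.mem_coe, Finset.mem_product, Finset.mem_Icc, Finset.mem_Icc]
    refine ⟨⟨?_, ?_⟩, ⟨?_, ?_⟩⟩ <;> simp only <;> omega
  have h1 := Set.ncard_le_ncard_of_injOn _ hmaps hinj (Finset.finite_toSet B)
  rw [Set.ncard_coe_finset] at h1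
  refine h1.trans ?_
  have h2 : (Finset.Icc (-(s : ℤ)) s).card = 2 * s + 1 := by
    rw [Int.card_Icc]; omega
  rw [hB, Finset.card_product, h2]
  have h3 : s * s ≤ X := Nat.sqrt_le X
  nlinarith

/-- **The count.** -/
theorem count : ∃ c : ℝ, 0 < c ∧ ∃ X₀ : ℕ, ∀ X : ℕ, X₀ ≤ X →
    c * ((Family X).ncard : ℝ) ≤ (({D | D ∈ Family X ∧ Good D} : Set GaussianInt).ncard : ℝ) := by
  obtain ⟨c, hc, X₀, h⟩ := Pool.Agent.Y699.positive
  have key : ∀ X : ℕ, X₀ ≤ X →
      c * X ≤ (({D | D ∈ Family X ∧ Good D} : Set GaussianInt).ncard : ℝ) := by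
    intro X hX
    refine (h X hX).trans ?_
    have h1 : ((Pool.Agent.Y699.GB X : Finset GaussianInt) : Set GaussianInt) ⊆
        {D | D ∈ Family X ∧ Good D} := by
      intro D hD
      have h2 : D ∈ Pool.Agent.Y699.SB X ∧ Pool.Agent.Y699.Good D := by
        have h0 := Finset.mem_coe.1 hD
        unfold Pool.Agent.Y699.GB at h0
        classical
        exact Finset.mem_filter.1 h0
      have h3 := (Pool.Agent.Y699.mem_SB).1 h2.1
      refine ⟨⟨h3.2.sqf, ?_⟩, good_of h2.2⟩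
      have h4 : D.norm.natAbs ≤ X := h3.1
      omega
    have h5 := Set.ncard_le_ncard h1 ((family_finite X).subset fun D hD => hD.1)
    rw [Set.ncard_coe_finset] at h5
    exact_mod_cast h5
  refine ⟨c / 9, by positivity, max X₀ 1, fun X hX => ?_⟩
  have hX0 : X₀ ≤ X := (le_max_left _ _).trans hX
  have hX1 : 1 ≤ X := (le_max_right _ _).trans hX
  have h1 := key X hX0
  have h2 : ((Family X).ncard : ℝ) ≤ 9 * X := by exact_mod_cast family_le hX1
  calc c / 9 * ((Family X).ncard : ℝ) ≤ c / 9 * (9 * X) :=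
        mul_le_mul_of_nonneg_left h2 (by positivity)
    _ = c * X := by ring
    _ ≤ _ := h1

end Pool.Agent.L0h86.GQ.D
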