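import Pool.Agent.L0h86.GQ.Stm

/-!
# Schneider's conjecture for `p = 2` and all twists over quadratic extensions of `ℚ(i)`
-/

set_option autoImplicit false

namespace Pool.Agent.L0h86.GQ.D

open scoped Classical

/-! ### The fields -/

/-- An algebraic closure of `ℚ`. -/
abbrev QBar : Type := AlgebraicClosure ℚ

/-- The element `a + b w` for the Gaussian integer `z = a + b i`. -/
noncomputable def emb (w : QBar) (z : GaussianInt) : QBar := z.re + z.im * w

/-- The field `K = ℚ(w)`. It is `ℚ(i)` if `w² = -1`. -/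
noncomputable abbrev K (w : QBar) : IntermediateField ℚ QBar := IntermediateField.adjoin ℚ {w}

/-- The absolute Galois group of `K`. -/
abbrev Gal (w : QBar) : Type := QBar ≃ₐ[K w] QBar

/-- The absolute Galois group of `L = K(s)`, a closed subgroup of the one of `K`. -/
noncomputable def sub (w s : QBar) : Subgroup (Gal w) :=
  (IntermediateField.adjoin (K w) {s}).fixingSubgroup

/-- The absolute Galois group of `L = K(s)`. -/
abbrev GalL (w s : QBar) : Type := ↥(sub w s)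

/-! ### The Tate twists and the Tate–Shafarevich groups -/

/-- The `2`-adic cyclotomic character. -/
noncomputable def cyc (w : QBar) : Gal w →* ℤ_[2]ˣ :=
  (cyclotomicCharacter QBar 2).comp (MulSemiringAction.toRingAut (Gal w) QBar)

/-- The `2`-adic integer by which the element `σ` of the absolute Galois group of `L` acts on
`ℤ_2(r)`, that is, the `r`-th power of the value of the cyclotomic character. -/
noncomputable def tate {w s : QBar} (r : ℤ) (σ : GalL w s) : ℤ_[2] :=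
  (((cyc w (σ : Gal w)) ^ r : ℤ_[2]ˣ) : ℤ_[2])

/-- The decomposition group of the place of `L` given by the embedding `ι` of `ℚ̄`. -/
def Dec {w s : QBar} {p : ℕ} [Fact p.Prime] (ι : QBar →ₐ[ℚ] PadicAlgCl p) : Set (GalL w s) :=
  {σ | ∃ τ : PadicAlgCl p ≃ₐ[ℚ_[p]] PadicAlgCl p, ∀ x, τ (ι x) = ι ((σ : Gal w) x)}

/-- Its inertia group: the automorphisms which are trivial on the residue field. -/
def Inr {w s : QBar} {p : ℕ} [Fact p.Prime] (ι : QBar →ₐ[ℚ] PadicAlgCl p) : Set (GalL w s) :=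
  {σ | ∃ τ : PadicAlgCl p ≃ₐ[ℚ_[p]] PadicAlgCl p, (∀ x, τ (ι x) = ι ((σ : Gal w) x)) ∧
    ∀ z : PadicAlgCl p, ‖z‖ ≤ 1 → ‖τ z - z‖ < 1}

/-- The continuous cocycles of the absolute Galois group of `L` with values in `ℤ_2(r)`. -/
structure IsCocycle {w s : QBar} (r : ℤ) (c : GalL w s → ℤ_[2]) : Prop where
  cont : Continuous c
  mul : ∀ σ τ, c (σ * τ) = c σ + tate r σ * c τ

/-- The restriction of `c` to the subset `S` is a coboundary with values in `ℤ_2(r)`. -/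
def TrivialOn {w s : QBar} (r : ℤ) (S : Set (GalL w s)) (c : GalL w s → ℤ_[2]) : Prop :=
  ∃ z : ℤ_[2], ∀ σ ∈ S, c σ = (tate r σ - 1) * z

/-- The cocycles of the elements of the groups `Ш¹(O_{L,S}, ℤ_2(r))`: they vanish on the inertia
groups of the places prime to `2` (on which the cyclotomic character is trivial), because their
classes are unramified outside `S` and locally trivial at the places of `S`, and their restrictions
to the decomposition groups of the places above `2` are coboundaries. -/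
structure InSha {w s : QBar} (r : ℤ) (c : GalL w s → ℤ_[2]) : Prop where
  odd : ∀ (p : ℕ) [Fact p.Prime] (ι : QBar →ₐ[ℚ] PadicAlgCl p), p ≠ 2 → ∀ σ ∈ Inr ι, c σ = 0
  two : ∀ ι : QBar →ₐ[ℚ] PadicAlgCl 2, TrivialOn r (Dec ι) c

/-- `Ш¹(O_{L,S}, ℤ_2(r)) = 0` for all `S`. -/
def ShaZero (w s : QBar) (r : ℤ) : Prop :=
  ∀ c : GalL w s → ℤ_[2], IsCocycle r c → InSha r c → TrivialOn r Set.univ c

/-! ### The family -/

/-- `D` is squarefree, congruent to `1` modulo `2 + 2 i`, its norm is `5` modulo `8`, and the only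
factorizations `D = d d'` with `d` and `d'` congruent to `1` modulo `2 + 2 i` such that `d` is a square
modulo all prime divisors of `d'` and `d'` is a square modulo all prime divisors of `d` are the ones
with `d = 1` or `d' = 1`. -/
structure Good (D : GaussianInt) : Prop where
  sqf : Squarefree D
  one : (⟨2, 2⟩ : GaussianInt) ∣ D - 1
  five : D.norm % 8 = 5
  indec : ∀ d d' : GaussianInt, (⟨2, 2⟩ : GaussianInt) ∣ d - 1 → (⟨2, 2⟩ : GaussianInt) ∣ d' - 1 →
    D = d * d' → (∀ ρ : GaussianInt, Prime ρ → ρ ∣ d → ∃ y, ρ ∣ d' - y ^ 2) →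
    (∀ ρ : GaussianInt, Prime ρ → ρ ∣ d' → ∃ y, ρ ∣ d - y ^ 2) → d = 1 ∨ d' = 1

/-- For `K = ℚ(i)` and `L = K(√D)`: the degree of `L` over `K` is two, `L` is not a Galois extension of
`ℚ`, and `Ш¹(O_{L,S}, ℤ_2(r)) = 0` for all `r ≠ 0` and all `S`. -/
def Schneider (D : GaussianInt) : Prop :=
  ∀ w s : QBar, w ^ 2 = -1 → s ^ 2 = emb w D → s ∉ K w ∧
    ¬ IsGalois ℚ (IntermediateField.adjoin ℚ ({w, s} : Set QBar)) ∧ ∀ r : ℤ, r ≠ 0 → ShaZero w s r

/-- The squarefree Gaussian integers of norm at most `X`. -/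
def Family (X : ℕ) : Set GaussianInt := {D | Squarefree D ∧ D.norm ≤ X}

/-! ### The proof -/

section proof

open Pool.Agent.L0h86.GQ
open Pool.Agent.Y715.Gi (ev ev_apply ev_ne lam gk_ev)

variable {w : QBar} (hw : w ^ 2 = -1) {s : QBar}

lemma emb_eq (z : GaussianInt) : emb w z = ev w hw z := by
  unfold emb
  rw [ev_apply]

lemma sub_eq (hs0 : s ≠ 0) (hs : ∀ σ : Gal w, σ s = s ∨ σ s = -s) :
    sub w s = Pool.Agent.R384.kr (Pool.Agent.R384.es hs0 hs) ⊤ := by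
  ext σ
  unfold sub
  rw [Pool.Agent.R384.mem_kr, Pool.Agent.R384.es_one, IntermediateField.mem_fixingSubgroup_iff]
  constructor
  · intro h
    exact ⟨Subgroup.mem_top σ, h s (IntermediateField.mem_adjoin_simple_self (K w) s)⟩
  · rintro ⟨-, h⟩ x hx
    have h1 : IntermediateField.adjoin (K w) {s} ≤
        IntermediateField.fixedField (Subgroup.zpowers σ) := by
      rw [IntermediateField.adjoin_simple_le_iff, IntermediateField.mem_fixedField_iff]
      intro τ hτ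
      obtain ⟨k, rfl⟩ := hτ
      have h2 : σ ∈ MulAction.stabilizer (Gal w) s := h
      exact (MulAction.stabilizer (Gal w) s).zpow_mem h2 k
    exact (IntermediateField.mem_fixedField_iff _ x).1 (h1 hx) σ (Subgroup.mem_zpowers σ)

lemma lam_iff (x : GaussianInt) : lam ^ 3 ∣ x ↔ (⟨2, 2⟩ : GaussianInt) ∣ x := by
  have e1 : lam ^ 3 = (⟨2, 2⟩ : GaussianInt) * ⟨0, 1⟩ := by
    unfold lam
    decide
  have e2 : (⟨2, 2⟩ : GaussianInt) = lam ^ 3 * ⟨0, -1⟩ := by
    unfold lam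
    decide
  constructor
  · rintro ⟨y, rfl⟩
    exact ⟨⟨0, 1⟩ * y, by rw [e1]; ring⟩
  · rintro ⟨y, rfl⟩
    exact ⟨⟨0, -1⟩ * y, by rw [e2]; ring⟩

lemma lam_of {x : GaussianInt} (h : (⟨2, 2⟩ : GaussianInt) ∣ x) : lam ^ 3 ∣ x := (lam_iff x).2 h

lemma crit_of {D : GaussianInt} (hg : Good D) : CritG D := fun d d' h1 h2 h3 h4 h5 =>
  hg.indec d d' ((lam_iff _).1 h1) ((lam_iff _).1 h2) h3 h4 h5

/-- **The criterion.** -/
theorem sch (hT : S_TOPG) (hC : S_CYC) (hN : S_NGAL) {D : GaussianInt} (hg : Good D) :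
    Schneider D := by
  intro w s hw hsd
  rw [emb_eq hw] at hsd
  have hs0 : s ≠ 0 := by
    rintro rfl
    apply ev_ne hw hg.sqf.ne_zero
    rw [← hsd]
    ring
  have hs : ∀ σ : Gal w, σ s = s ∨ σ s = -s := by
    intro σ
    have h1 : (σ s) ^ 2 = s ^ 2 := by rw [← map_pow, hsd, gk_ev hw]
    exact sq_eq_sq_iff_eq_or_eq_neg.1 h1
  obtain ⟨ι⟩ := Pool.Agent.Y715.Sel.exists_emb2
  obtain ⟨n1, τ, n2⟩ := hN w s hw D hg.five hsd
  refine ⟨n1, ?_, ?_⟩
  · intro hgal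
    apply n2
    have h1 := hgal.to_normal
    have h2 : s ∈ IntermediateField.adjoin ℚ ({w, s} : Set QBar) :=
      IntermediateField.subset_adjoin ℚ _ (by simp)
    have h3 := (IntermediateField.normal_iff_forall_map_le'
      (K := IntermediateField.adjoin ℚ ({w, s} : Set QBar))).1 h1 τ
    exact h3 ⟨s, h2, rfl⟩
  · intro r hr c hc hsha
    set χ : Gal w →* ℤ_[2]ˣ := Pool.Agent.R384.cyc w ^ r with hχ
    have htate : ∀ σ : GalL w s, Pool.Agent.R384.vl χ (σ : Gal w) = ((tate r σ : ℤ_[2]) : ℚ_[2]) :=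
      fun σ => rfl
    set c' : Gal w → ℚ_[2] := fun σ => if h : σ ∈ sub w s then ((c ⟨σ, h⟩ : ℤ_[2]) : ℚ_[2]) else 0
      with hc'
    have hval : ∀ σ : GalL w s, c' (σ : Gal w) = ((c σ : ℤ_[2]) : ℚ_[2]) := by
      intro σ
      rw [hc']
      exact dif_pos σ.2
    have hmem : ∀ {σ : Gal w}, σ ∈ Pool.Agent.R384.kr (Pool.Agent.R384.es hs0 hs) ⊤ →
        σ ∈ sub w s := fun h => by rwa [sub_eq hs0 hs]
    have g1 : ContinuousOn c' (Pool.Agent.R384.kr (Pool.Agent.R384.es hs0 hs) ⊤ : Subgroup (Gal w)) := by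
      rw [← sub_eq hs0 hs, continuousOn_iff_continuous_domRestrict]
      have e : (↑(sub w s) : Set (Gal w)).domRestrict c' = fun σ => ((c σ : ℤ_[2]) : ℚ_[2]) := by
        funext σ
        exact hval σ
      rw [e]
      exact continuous_subtype_val.comp hc.cont
    have g2 : ∀ σ ∈ Pool.Agent.R384.kr (Pool.Agent.R384.es hs0 hs) ⊤,
        ∀ τ ∈ Pool.Agent.R384.kr (Pool.Agent.R384.es hs0 hs) ⊤,
        c' (σ * τ) = c' σ + Pool.Agent.R384.vl χ σ * c' τ := by
      intro σ hσ τ hτ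
      have h1 := hc.mul ⟨σ, hmem hσ⟩ ⟨τ, hmem hτ⟩
      have h2 := hval (⟨σ, hmem hσ⟩ * ⟨τ, hmem hτ⟩)
      have h3 : c' (σ * τ) = ((c (⟨σ, hmem hσ⟩ * ⟨τ, hmem hτ⟩) : ℤ_[2]) : ℚ_[2]) := h2
      rw [h3, h1, hval ⟨σ, hmem hσ⟩, hval ⟨τ, hmem hτ⟩, htate ⟨σ, hmem hσ⟩]
      push_cast
      rfl
    obtain ⟨y, hy⟩ := hT w hw D hg.sqf (lam_of hg.one) hg.five (crit_of hg) s hs0 hs hsd r
      c' ⟨g1, g2⟩ (fun p _ κ hp => ⟨0, fun σ hσ h1 => by
        rw [mul_zero, hval ⟨σ, hmem h1⟩, hsha.odd p κ hp ⟨σ, hmem h1⟩ hσ]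
        rfl⟩) (fun κ => by
        obtain ⟨z, hz⟩ := hsha.two κ
        refine ⟨(z : ℚ_[2]), fun σ hσ h1 => ?_⟩
        rw [hval ⟨σ, hmem h1⟩, hz ⟨σ, hmem h1⟩ hσ, htate ⟨σ, hmem h1⟩]
        push_cast
        rfl)
    -- the integrality
    obtain ⟨z, hz⟩ := hsha.two ι
    obtain ⟨σ, h1, h2, h3⟩ := (hC w hw).2 s hs ι r hr
    have h4 : σ ∈ sub w s := hmem (Pool.Agent.R384.mem_kr.2
      ⟨Subgroup.mem_top σ, (Pool.Agent.R384.es_one hs0 hs).2 h2⟩)
    have h5 := hz ⟨σ, h4⟩ h1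
    have h6 := hy σ (by rwa [← sub_eq hs0 hs])
    rw [hval ⟨σ, h4⟩, h5, htate ⟨σ, h4⟩] at h6
    push_cast at h6
    have h7 : ((tate r (⟨σ, h4⟩ : GalL w s) : ℤ_[2]) : ℚ_[2]) - 1 ≠ 0 := by
      intro h
      apply h3
      have h8 : (((tate r (⟨σ, h4⟩ : GalL w s) : ℤ_[2]) - 1 : ℤ_[2]) : ℚ_[2]) = 0 := by
        push_cast
        exact h
      have h9 : (tate r (⟨σ, h4⟩ : GalL w s) : ℤ_[2]) - 1 = 0 :=
        Subtype.ext (h8.trans PadicInt.coe_zero.symm)
      have h10 : (tate r (⟨σ, h4⟩ : GalL w s) : ℤ_[2]) = 1 := sub_eq_zero.1 h9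
      exact Units.ext h10
    have hyz : y = (z : ℚ_[2]) := (mul_left_cancel₀ h7 h6).symm
    refine ⟨z, fun σ _ => ?_⟩
    have h8 := hy (σ : Gal w) (by rw [← sub_eq hs0 hs]; exact σ.2)
    rw [hval, hyz, htate] at h8
    have h9 : ((c σ : ℤ_[2]) : ℚ_[2]) = (((tate r σ - 1) * z : ℤ_[2]) : ℚ_[2]) := by
      rw [h8]
      push_cast
      rfl
    exact Subtype.ext h9
end proof

end Pool.Agent.L0h86.GQ.D
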