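import Pool.Agent.R384.X.Mq7
import Pool.Agent.R384.Cyc
import Pool.Agent.Y715.Sel

/-!
# Project GQ (helper86): Schneider's conjecture, `p = 2`, all twists, over quadratic extensions of `ℚ(i)`

`K = ℚ(i₀)`, `i₀ ^ 2 = -1`, `GK i₀` its absolute Galois group, `cyc i₀` the cyclotomic character, `es hs0 hs`
the character of `K(s)`. `lam = 1 + i`. `CritG D`, `Squarefree D`, `lam ^ 3 ∣ D - 1` and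
`D.norm % 8 = 5` are the conditions of `Pool.Agent.Y699.Good D`.
-/

set_option autoImplicit false
set_option linter.unusedVariables false

namespace Pool.Agent.L0h86.GQ

open Pool.Agent.Y715.Nr (Au Inert)
open Pool.Agent.Y715.Gi (QB KK GK ev lam)
open Pool.Agent.R384 (vl Coc CobOn CocOn md sgc kr es cyc II DD)

/-- LSQ: the squares in `ℚ_2(i)` modulo `4 (1 + i)`. -/
def S_LSQ : Prop := ∀ (I : PadicAlgCl 2) (hI : I ^ 2 = -1) (z : GaussianInt) (s : PadicAlgCl 2),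
  s ^ 2 = ev I hI z → (∀ τ : Au 2, τ I = I → τ s = s) → ¬ lam ∣ z →
  lam ^ 5 ∣ z - 1 ∨ lam ^ 5 ∣ z + 1

/-- ODD: the local squares at the odd primes. -/
def S_ODD : Prop := ∀ (i₀ : QB) (hi : i₀ ^ 2 = -1) (ρ z : GaussianInt), Prime ρ →
  ∀ (p : ℕ) [Fact p.Prime] (ι : QB →ₐ[ℚ] PadicAlgCl p), p ≠ 2 → ‖ι (ev i₀ hi ρ)‖ < 1 →
  ∀ t : QB, t ^ 2 = ev i₀ hi z → (∀ σ ∈ (DD ι : Set (GK i₀)), σ t = t) → ∃ y, ρ ∣ z - y ^ 2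

/-- KEY: the quadratic characters which are trivial at a place above two and unramified outside
`D`. -/
def S_KEY : Prop := ∀ (i₀ : QB) (hi : i₀ ^ 2 = -1) (D : GaussianInt), Squarefree D →
  lam ^ 3 ∣ D - 1 → ∀ f : GK i₀ → ZMod 2, IsLocallyConstant f → (∀ σ τ, f (σ * τ) = f σ + f τ) →
  ∀ ι : QB →ₐ[ℚ] PadicAlgCl 2, (∀ σ ∈ (DD ι : Set (GK i₀)), f σ = 0) →
  (∀ ρ : GaussianInt, Prime ρ → ¬ ρ ∣ D → ∀ (p : ℕ) [Fact p.Prime] (κ : QB →ₐ[ℚ] PadicAlgCl p),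
    p ≠ 2 → ‖κ (ev i₀ hi ρ)‖ < 1 → ∀ σ ∈ (II κ : Set (GK i₀)), f σ = 0) →
  ∃ d d' : GaussianInt, lam ^ 3 ∣ d - 1 ∧ lam ^ 3 ∣ d' - 1 ∧ D = d * d' ∧ lam ^ 5 ∣ d - 1 ∧
    ∀ t : QB, t ^ 2 = ev i₀ hi d → ∀ σ : GK i₀, (σ t = t ↔ f σ = 0)

/-- the criterion -/
def CritG (D : GaussianInt) : Prop := ∀ d d' : GaussianInt, lam ^ 3 ∣ d - 1 → lam ^ 3 ∣ d' - 1 →
  D = d * d' → (∀ ρ : GaussianInt, Prime ρ → ρ ∣ d → ∃ y, ρ ∣ d' - y ^ 2) →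
  (∀ ρ : GaussianInt, Prime ρ → ρ ∣ d' → ∃ y, ρ ∣ d - y ^ 2) → d = 1 ∨ d' = 1

/-- CYC: the cyclotomic character of `ℚ(i)`. -/
def S_CYC : Prop := ∀ i₀ : QB, i₀ ^ 2 = -1 →
  (∀ σ : GK i₀, (4 : ℤ_[2]) ∣ ((cyc i₀ σ : ℤ_[2]ˣ) : ℤ_[2]) - 1) ∧
  ∀ s : QB, (∀ σ : GK i₀, σ s = s ∨ σ s = -s) → ∀ (ι : QB →ₐ[ℚ] PadicAlgCl 2) (k : ℤ), k ≠ 0 →
    ∃ σ ∈ (DD ι : Set (GK i₀)), σ s = s ∧ (cyc i₀ σ) ^ k ≠ 1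

/-- VAN: the vanishing for the characters `cyc ^ k χ_D`; the case `D = 1` is included. -/
def S_VAN : Prop := ∀ (i₀ : QB) (hi : i₀ ^ 2 = -1) (D : GaussianInt), Squarefree D →
  lam ^ 3 ∣ D - 1 → (D = 1 ∨ D.norm % 8 = 5) → CritG D →
  ∀ (s : QB) (hs0 : s ≠ 0) (hs : ∀ σ : GK i₀, σ s = s ∨ σ s = -s), s ^ 2 = ev i₀ hi D →
  ∀ (k : ℤ) (c : GK i₀ → ℚ_[2]), Coc (cyc i₀ ^ k * sgc (es hs0 hs)) c →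
  (∀ (p : ℕ) [Fact p.Prime] (ι : QB →ₐ[ℚ] PadicAlgCl p), p ≠ 2 →
    CobOn (cyc i₀ ^ k * sgc (es hs0 hs)) (II ι : Set (GK i₀)) c) →
  (∀ ι : QB →ₐ[ℚ] PadicAlgCl 2, CobOn (cyc i₀ ^ k * sgc (es hs0 hs)) (DD ι : Set (GK i₀)) c) →
  ∃ y : ℚ_[2], ∀ σ, c σ = (vl (cyc i₀ ^ k * sgc (es hs0 hs)) σ - 1) * y

/-- the Selmer group over the field fixed by `H` is zero -/
def VanG {i₀ : QB} (χ : GK i₀ →* ℤ_[2]ˣ) (H : Subgroup (GK i₀)) : Prop :=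
  ∀ c : GK i₀ → ℚ_[2], CocOn χ H c →
    (∀ (p : ℕ) [Fact p.Prime] (ι : QB →ₐ[ℚ] PadicAlgCl p), p ≠ 2 →
      ∃ y : ℚ_[2], ∀ σ ∈ (II ι : Set (GK i₀)), σ ∈ H → c σ = (vl χ σ - 1) * y) →
    (∀ ι : QB →ₐ[ℚ] PadicAlgCl 2, ∃ y : ℚ_[2], ∀ σ ∈ (DD ι : Set (GK i₀)), σ ∈ H →
      c σ = (vl χ σ - 1) * y) →
    ∃ y : ℚ_[2], ∀ σ ∈ H, c σ = (vl χ σ - 1) * y

/-- STEP: from the two characters to the quadratic extension. -/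
def S_STEP : Prop := ∀ (i₀ : QB) (χ : GK i₀ →* ℤ_[2]ˣ) (ε : GK i₀ →* ℤˣ)
  (G' : Subgroup (GK i₀)), (∀ u : ℤˣ, IsOpen {g | ε g = u}) → VanG χ G' → VanG (χ * sgc ε) G' →
  VanG χ (kr ε G')

/-- TOPG: the vanishing over `K(√D)`. -/
def S_TOPG : Prop := ∀ (i₀ : QB) (hi : i₀ ^ 2 = -1) (D : GaussianInt), Squarefree D →
  lam ^ 3 ∣ D - 1 → D.norm % 8 = 5 → CritG D → ∀ (s : QB) (hs0 : s ≠ 0) (hs : ∀ σ : GK i₀, σ s = s ∨ σ s = -s),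
  s ^ 2 = ev i₀ hi D → ∀ k : ℤ, VanG (cyc i₀ ^ k) (kr (es hs0 hs) ⊤)

/-- NGAL: the fields `ℚ(i, √D)` are not Galois extensions of `ℚ`. -/
def S_NGAL : Prop := ∀ (i₀ s : QB) (hi : i₀ ^ 2 = -1) (D : GaussianInt), D.norm % 8 = 5 →
  s ^ 2 = ev i₀ hi D → s ∉ IntermediateField.adjoin ℚ {i₀} ∧
  ∃ σ : QB ≃ₐ[ℚ] QB, σ s ∉ IntermediateField.adjoin ℚ {i₀, s}

end Pool.Agent.L0h86.GQ
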